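import Mathlib

/-!
# The relative interior of a convex set in a finite-dimensional space
-/

set_option autoImplicit false

namespace Q49.SB

open Set

/-- A point of a convex set all of whose chords can be prolonged lies in the relative interior. -/
theorem mem_intrinsicInterior_of_prolong {V : Type*} [AddCommGroup V] [Module ℝ V]
    [TopologicalSpace V] [IsTopologicalAddGroup V] [ContinuousSMul ℝ V] [T2Space V]
    [FiniteDimensional ℝ V] {s : Set V} (hs : Convex ℝ s) {x : V} (hx : x ∈ s)
    (h : ∀ y ∈ s, ∃ ε > (0 : ℝ), x + ε • (x - y) ∈ s) : x ∈ intrinsicInterior ℝ s := by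
  classical
  obtain ⟨b, hbs, hbspan, hbli⟩ := exists_linearIndependent ℝ ((fun y => y - x) '' s)
  have hbfin : b.Finite := hbli.setFinite
  have : Fintype b := hbfin.fintype
  -- both directions
  have hdir : ∀ v : b, ∃ δ > (0 : ℝ), ∀ t : ℝ, |t| ≤ δ → x + t • (v : V) ∈ s := by
    rintro ⟨v, hv⟩
    obtain ⟨y, hy, rfl⟩ := hbs hv
    obtain ⟨ε, hε, hε2⟩ := h y hy
    refine ⟨min ε 1, lt_min hε one_pos, fun t ht => ?_⟩
    dsimp only
    rcases le_or_gt 0 t with h0 | h0
    · have ht1 : t ≤ 1 := (le_abs_self t).trans (ht.trans (min_le_right _ _))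
      have := hs hx hy (sub_nonneg.2 ht1) h0 (by ring)
      convert this using 1
      module
    · have ht1 : -t ≤ ε := (neg_le_abs t).trans (ht.trans (min_le_left _ _))
      have h2 : 0 ≤ -t / ε := div_nonneg (by linarith) hε.le
      have h3 : -t / ε ≤ 1 := (div_le_one hε).2 ht1
      have := hs hx hε2 (sub_nonneg.2 h3) h2 (by ring)
      convert this using 1
      have h4 : -t / ε * ε = -t := div_mul_cancel₀ _ hε.ne'
      have h5 : (-t / ε) • (ε • (x - y)) = (-t) • (x - y) := by rw [smul_smul, h4]
      rw [smul_add, h5]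
      module
  choose δ hδ hδs using hdir
  set N : ℝ := Fintype.card b + 1 with hN
  have hNpos : 0 < N := by positivity
  have hcomb : ∀ t : b → ℝ, (∀ v, |t v| < δ v / N) → x + ∑ v, t v • (v : V) ∈ s := by
    intro t ht
    let z : Option b → V := fun o => o.elim x fun v => x + (N * t v) • (v : V)
    have h1 : ∑ o : Option b, (1 / N) • z o ∈ s := by
      refine hs.sum_mem (fun _ _ => by positivity) ?_ ?_
      · rw [Finset.sum_const, Finset.card_univ, Fintype.card_option, nsmul_eq_mul]
        push_cast
        rw [hN, mul_one_div, div_self]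
        exact hNpos.ne'
      · rintro (_ | v) _
        · exact hx
        · refine hδs v _ ?_
          rw [abs_mul, abs_of_pos hNpos]
          have := (lt_div_iff₀ hNpos).1 (ht v)
          linarith
    rw [Fintype.sum_option] at h1
    convert h1 using 1
    have h2 : ∀ v : b, (1 / N) • z (some v) = (1 / N) • x + t v • (v : V) := by
      intro v
      change (1 / N) • (x + (N * t v) • (v : V)) = _
      rw [smul_add, smul_smul]
      congr 2
      field_simp
    rw [Finset.sum_congr rfl fun v _ => h2 v, Finset.sum_add_distrib, Finset.sum_const,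
      Finset.card_univ, ← add_assoc]
    congr 1
    change x = (1 / N) • x + _
    rw [← Nat.cast_smul_eq_nsmul ℝ, smul_smul, ← add_smul]
    have h3 : 1 / N + (Fintype.card b : ℝ) * (1 / N) = 1 := by
      rw [hN]
      field_simp
      ring
    rw [h3, one_smul]
  -- coordinates
  let B := Module.Basis.span hbli
  have hg : ∀ v : b, ∃ g : V →ₗ[ℝ] ℝ, g.comp (Submodule.span ℝ (range ((↑) : b → V))).subtype =
      B.coord v := fun v => LinearMap.exists_extend _
  choose g hg using hg
  have hcoord : ∀ w ∈ Submodule.span ℝ b, ∑ v, g v w • (v : V) = w := by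
    intro w hw
    have hw' : w ∈ Submodule.span ℝ (range ((↑) : b → V)) := by rwa [Subtype.range_coe]
    have h1 : ∀ v, g v w = B.repr ⟨w, hw'⟩ v := fun v =>
      congrArg (fun f : _ →ₗ[ℝ] ℝ => f ⟨w, hw'⟩) (hg v)
    have h2 := congrArg Subtype.val (B.sum_repr ⟨w, hw'⟩)
    rw [Submodule.coe_sum] at h2
    refine Eq.trans (Finset.sum_congr rfl fun v _ => ?_) h2
    rw [h1 v, Submodule.coe_smul, Module.Basis.span_apply]
  rw [mem_intrinsicInterior]
  refine ⟨⟨x, subset_affineSpan ℝ s hx⟩, ?_, rfl⟩
  rw [mem_interior]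
  refine ⟨{p | ∀ v, |g v ((p : V) - x)| < δ v / N}, ?_, ?_, ?_⟩
  · rintro ⟨p, hp⟩ hpU
    have hpx : p - x ∈ Submodule.span ℝ b := by
      rw [hbspan]
      have h1 : p -ᵥ x ∈ vectorSpan ℝ s :=
        vsub_mem_vectorSpan_of_mem_affineSpan_of_mem_affineSpan hp (subset_affineSpan ℝ s hx)
      rwa [vectorSpan_eq_span_vsub_set_right ℝ hx] at h1
    have h2 := hcomb (fun v => g v (p - x)) hpU
    rw [hcoord _ hpx, add_sub_cancel] at h2
    exact h2
  · have : {p : affineSpan ℝ s | ∀ v, |g v ((p : V) - x)| < δ v / N} =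
        ⋂ v, {p : affineSpan ℝ s | |g v ((p : V) - x)| < δ v / N} := by
      ext p
      simp
    rw [this]
    refine isOpen_iInter_of_finite fun v => ?_
    have hc : Continuous fun p : affineSpan ℝ s => |g v ((p : V) - x)| := by
      have h1 : Continuous (g v) := (g v).continuous_of_finiteDimensional
      have h2 : Continuous fun p : affineSpan ℝ s => (p : V) - x :=
        continuous_subtype_val.sub continuous_const
      exact (h1.comp h2).abs
    exact isOpen_lt hc continuous_const
  · intro v
    change |g v (x - x)| < _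
    rw [sub_self, map_zero, abs_zero]
    exact div_pos (hδ v) hNpos

end Q49.SB
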