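import Mathlib

/-!
# Nonnegative forms on totally real projective varieties, sums of squares, stubborn forms
-/

set_option autoImplicit false

namespace Q49.SB

open MvPolynomial

/-- the homogeneous coordinate ring of projective `n`-space -/
abbrev Poly (n : ℕ) : Type := MvPolynomial (Fin (n + 1)) ℝ

variable {n : ℕ}

/-- the real points of the affine cone over the subscheme of projective space defined by `I` -/
def realPts (I : Ideal (Poly n)) : Set (Fin (n + 1) → ℝ) := {p | ∀ f ∈ I, eval p f = 0}

/-- `I` is the homogeneous vanishing ideal of a totally real variety `X ⊂ ℙⁿ`: it is homogeneous,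
and it consists of all polynomials which vanish at the real points. -/
structure TotallyReal (I : Ideal (Poly n)) : Prop where
  homogeneous : ∀ f ∈ I, ∀ d : ℕ, homogeneousComponent d f ∈ I
  dense : ∀ f : Poly n, (∀ p ∈ realPts I, eval p f = 0) → f ∈ I

/-- the graded piece `ℝ[X]_d` of the homogeneous coordinate ring `ℝ[X] = ℝ[x_0, …, x_n] / I` -/
noncomputable def piece (I : Ideal (Poly n)) (d : ℕ) : Submodule ℝ (Poly n ⧸ I) :=
  (homogeneousSubmodule (Fin (n + 1)) ℝ d).map (Ideal.Quotient.mkₐ ℝ I).toLinearMap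

/-- `F` is nonnegative at all real points. -/
def Nonneg (I : Ideal (Poly n)) (F : Poly n ⧸ I) : Prop :=
  ∀ f : Poly n, Ideal.Quotient.mk I f = F → ∀ p ∈ realPts I, 0 ≤ eval p f

/-- `F` is a sum of squares of elements of `ℝ[X]_m`. -/
def IsSOS (I : Ideal (Poly n)) (m : ℕ) (F : Poly n ⧸ I) : Prop :=
  ∃ (r : ℕ) (G : Fin r → Poly n ⧸ I), (∀ i, G i ∈ piece I m) ∧ F = ∑ i, G i ^ 2

/-- The form `F` of degree `2 m` is stubborn: it is nonnegative and `F ^ k` is not a sum of squares
for any odd `k`. -/
def Stubborn (I : Ideal (Poly n)) (m : ℕ) (F : Poly n ⧸ I) : Prop :=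
  F ∈ piece I (2 * m) ∧ Nonneg I F ∧ ∀ k : ℕ, Odd k → ¬ IsSOS I (k * m) (F ^ k)

/-- the finite-dimensional real vector space `ℝ[X]_2` of quadratic forms on `X` -/
def Quad (I : Ideal (Poly n)) : Type := piece I 2

noncomputable instance (I : Ideal (Poly n)) : AddCommGroup (Quad I) :=
  inferInstanceAs (AddCommGroup (piece I 2))

noncomputable instance (I : Ideal (Poly n)) : Module ℝ (Quad I) :=
  inferInstanceAs (Module ℝ (piece I 2))

/-- a quadratic form as an element of `ℝ[X]` -/
def Quad.val {I : Ideal (Poly n)} (F : Quad I) : Poly n ⧸ I := Subtype.val F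

/-- the cone `P_X` of nonnegative quadratic forms -/
def quadCone (I : Ideal (Poly n)) : Set (Quad I) := {F | Nonneg I F.val}

/-- `𝓕` is a face of the convex set `P`. -/
def IsFace {V : Type} [AddCommGroup V] [Module ℝ V] (P 𝓕 : Set V) : Prop :=
  Convex ℝ 𝓕 ∧ IsExtreme ℝ P 𝓕

/-- The relative interior of a subset of a finite-dimensional real vector space, with respect to
its Hausdorff vector space topology (which is unique). -/
def RelInt {V : Type} [AddCommGroup V] [Module ℝ V] (s : Set V) : Set V :=
  {x | ∀ (_ : TopologicalSpace V) [IsTopologicalAddGroup V] [ContinuousSMul ℝ V] [T2Space V],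
    x ∈ intrinsicInterior ℝ s}

/-- The cone `P_X` has a face whose relative interior contains both a quadratic form `F` which is
not stubborn and a quadratic form `G` which is stubborn. -/
def HasMixedFace (I : Ideal (Poly n)) : Prop :=
  ∃ 𝓕 : Set (Quad I), IsFace (quadCone I) 𝓕 ∧
    ∃ F ∈ RelInt 𝓕, ∃ G ∈ RelInt 𝓕, ¬ Stubborn I 1 F.val ∧ Stubborn I 1 G.val

end Q49.SB
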