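import Pool.Agent.Q49.SB.Gen
import Pool.Agent.Q49.SB.Core

/-!
# A surface in `ℙ⁶` and a face of its cone of nonnegative quadrics with stubborn and non-stubborn
relative interior points
-/

set_option autoImplicit false

namespace Q49.SB

open MvPolynomial

/-- the parametrisation of the (cone over the) surface -/
def pt (a b c : ℝ) : Fin (6 + 1) → ℝ :=
  ![a ^ 2, a ^ 2 * c ^ 2, a ^ 2 * c ^ 4, a * b * c ^ 2, b ^ 2 * c, b ^ 2 * c ^ 3,
    b ^ 2 * (1 + c ^ 4)]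

/-- the homogeneous vanishing ideal of the surface -/
def J : Ideal (Poly 6) := van {p | ∃ a b c, p = pt a b c}

theorem mem_J {f : Poly 6} : f ∈ J ↔ ∀ a b c, eval (pt a b c) f = 0 := by
  constructor
  · intro h a b c
    exact h _ ⟨a, b, c, rfl⟩
  · rintro h p ⟨a, b, c, rfl⟩
    exact h a b c

theorem pt_scale (t a b c : ℝ) : (fun i => t ^ 2 * pt a b c i) = pt (t * a) (t * b) c := by
  funext i
  fin_cases i <;> simp [pt] <;> ring

theorem totallyReal_J : TotallyReal J := by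
  refine totallyReal_van ?_
  rintro p ⟨a, b, c, rfl⟩ t
  exact ⟨t * a, t * b, c, pt_scale t a b c⟩

/-- the quadric `E` -/
noncomputable def E : Poly 6 := X 1 ^ 2 - 2 * X 3 ^ 2 + X 4 * X 5

/-- the linear form `L` -/
noncomputable def L : Poly 6 := X 0 + X 2 - X 6

theorem rel {p : Fin (6 + 1) → ℝ} (hp : p ∈ realPts J) (f : Poly 6)
    (h : ∀ a b c, eval (pt a b c) f = 0) : eval p f = 0 := hp f (mem_J.2 h)

theorem E_nonneg {p : Fin (6 + 1) → ℝ} (hp : p ∈ realPts J) :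
    0 ≤ eval p E ∧ 0 ≤ eval p (L ^ 2 - 4 * E) := by
  have r1 := rel hp (X 0 * X 2 - X 1 ^ 2) (fun a b c => by simp [pt]; ring)
  have r2 := rel hp (X 0 ^ 4 * E - (X 1 * (X 0 ^ 2 - (X 0 * X 6 - X 3 ^ 2))) ^ 2)
    (fun a b c => by simp [pt, E]; ring)
  have r3 := rel hp (X 2 ^ 4 * E - (X 1 * (X 2 ^ 2 - (X 2 * X 6 - X 3 ^ 2))) ^ 2)
    (fun a b c => by simp [pt, E]; ring)
  have r4 := rel hp (X 3 ^ 4 - X 0 * X 2 * X 4 * X 5) (fun a b c => by simp [pt]; ring)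
  have r5 := rel hp ((X 4 ^ 2 + X 5 ^ 2) ^ 2 - X 4 * X 5 * X 6 ^ 2)
    (fun a b c => by simp [pt]; ring)
  have r6 := rel hp (X 0 ^ 4 * (L ^ 2 - 4 * E) -
    ((X 0 ^ 2 - (X 0 * X 6 - X 3 ^ 2)) * (X 0 - X 2)) ^ 2) (fun a b c => by simp [pt, E, L]; ring)
  have r7 := rel hp (X 2 ^ 4 * (L ^ 2 - 4 * E) -
    ((X 2 ^ 2 - (X 2 * X 6 - X 3 ^ 2)) * (X 0 - X 2)) ^ 2) (fun a b c => by simp [pt, E, L]; ring)
  rw [map_sub, map_mul, sub_eq_zero] at r2 r3 r6 r7
  rw [map_pow (eval p) (_ * _)] at r2 r3 r6 r7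
  simp only [map_sub, map_mul, map_pow, eval_X, map_add] at r1 r4 r5
  by_cases h0 : p 0 = 0
  · by_cases h2 : p 2 = 0
    · have h1 : p 1 = 0 := by
        have : p 1 ^ 2 = 0 := by rw [h0] at r1; linarith
        exact pow_eq_zero_iff two_ne_zero |>.1 this
      have h3 : p 3 = 0 := by
        have : p 3 ^ 4 = 0 := by rw [h0] at r4; linarith
        exact pow_eq_zero_iff (by norm_num) |>.1 this
      have e1 : eval p E = p 4 * p 5 := by simp [E, h1, h3]
      have e2 : eval p (L ^ 2 - 4 * E) = p 6 ^ 2 - 4 * (p 4 * p 5) := by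
        rw [map_sub, map_mul, e1]; simp [L, h0, h2]
      rw [e1, e2]
      have r5' : (p 4 ^ 2 + p 5 ^ 2) ^ 2 = p 4 * p 5 * p 6 ^ 2 := by linarith
      rcases lt_trichotomy (p 4 * p 5) 0 with h | h | h
      · exfalso
        have h4 : (p 4 ^ 2 + p 5 ^ 2) ^ 2 ≤ 0 := by
          rw [r5']; exact mul_nonpos_of_nonpos_of_nonneg h.le (sq_nonneg _)
        have h5 : p 4 ^ 2 + p 5 ^ 2 = 0 := by
          have : (p 4 ^ 2 + p 5 ^ 2) ^ 2 = 0 := le_antisymm h4 (sq_nonneg _)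
          exact pow_eq_zero_iff two_ne_zero |>.1 this
        nlinarith [sq_nonneg (p 4 + p 5), sq_nonneg (p 4 - p 5)]
      · rw [h]
        exact ⟨le_rfl, by nlinarith [sq_nonneg (p 6)]⟩
      · refine ⟨h.le, ?_⟩
        have h4 : p 4 * p 5 * (p 6 ^ 2 - 4 * (p 4 * p 5)) = (p 4 ^ 2 - p 5 ^ 2) ^ 2 := by
          nlinarith [r5']
        by_contra hneg
        have h5 : p 4 * p 5 * (p 6 ^ 2 - 4 * (p 4 * p 5)) < 0 :=
          mul_neg_of_pos_of_neg h (not_le.1 hneg)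
        nlinarith [sq_nonneg (p 4 ^ 2 - p 5 ^ 2)]
    · have h4 : 0 < eval p (X 2 ^ 4 : Poly 6) := by
        rw [map_pow, eval_X]; positivity
      exact ⟨nonneg_of_mul_nonneg_right (r3 ▸ sq_nonneg _) h4,
        nonneg_of_mul_nonneg_right (r7 ▸ sq_nonneg _) h4⟩
  · have h4 : 0 < eval p (X 0 ^ 4 : Poly 6) := by
      rw [map_pow, eval_X]; positivity
    exact ⟨nonneg_of_mul_nonneg_right (r2 ▸ sq_nonneg _) h4,
      nonneg_of_mul_nonneg_right (r6 ▸ sq_nonneg _) h4⟩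

/-- the parametrisation by polynomials -/
noncomputable def par : Fin (6 + 1) → MvPolynomial (Fin 3) ℝ :=
  ![X 0 ^ 2, X 0 ^ 2 * X 2 ^ 2, X 0 ^ 2 * X 2 ^ 4, X 0 * X 1 * X 2 ^ 2, X 1 ^ 2 * X 2,
    X 1 ^ 2 * X 2 ^ 3, X 1 ^ 2 * (1 + X 2 ^ 4)]

theorem mem_J_iff_par {f : Poly 6} : f ∈ J ↔ aeval par f = 0 := by
  have h1 : ∀ q : Fin 3 → ℝ, eval q (aeval par f) = eval (pt (q 0) (q 1) (q 2)) f := by
    intro q
    have h2 : (fun i => eval q (par i)) = pt (q 0) (q 1) (q 2) := by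
      funext i
      fin_cases i <;> simp [par, pt]
    rw [← h2]
    induction f using MvPolynomial.induction_on with
    | C a => simp
    | add p q hp hq => rw [map_add, map_add, map_add, hp, hq]
    | mul_X p i hp => rw [map_mul, map_mul, map_mul, hp, aeval_X, eval_X]
  rw [mem_J]
  constructor
  · intro h
    refine MvPolynomial.funext fun q => ?_
    rw [h1, h, map_zero]
  · intro h a b c
    have := h1 ![a, b, c]
    rw [h, map_zero] at this
    exact this.symm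

theorem isPrime_J : J.IsPrime := by
  refine ⟨fun h => ?_, fun {f g} hfg => ?_⟩
  · have h1 : (1 : Poly 6) ∈ J := by rw [h]; trivial
    rw [mem_J_iff_par, map_one] at h1
    exact one_ne_zero h1
  · rw [mem_J_iff_par, map_mul] at hfg
    rw [mem_J_iff_par, mem_J_iff_par]
    exact mul_eq_zero.1 hfg

end Q49.SB
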