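import Pool.Agent.Q49.SB.Ex

/-!
# The face
-/

set_option autoImplicit false

namespace Q49.SB

open MvPolynomial

variable {n : ℕ}

theorem finite_piece (I : Ideal (Poly n)) (d : ℕ) : FiniteDimensional ℝ (piece I d) := by
  have : Module.Finite ℝ (homogeneousSubmodule (Fin (n + 1)) ℝ d) :=
    Module.Finite.iff_fg.2 (homogeneousSubmodule_fg _ _ _)
  exact Module.Finite.map _ _

instance (I : Ideal (Poly n)) : FiniteDimensional ℝ (Quad I) := finite_piece I 2

theorem val_add {I : Ideal (Poly n)} (F G : Quad I) : (F + G).val = F.val + G.val := rfl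

theorem val_sub {I : Ideal (Poly n)} (F G : Quad I) : (F - G).val = F.val - G.val := rfl

theorem val_smul {I : Ideal (Poly n)} (c : ℝ) (F : Quad I) : (c • F).val = c • F.val := rfl

/-- the smallest face containing `F` -/
def face (I : Ideal (Poly n)) (F : Quad I) : Set (Quad I) :=
  {G | G ∈ quadCone I ∧ ∃ c : ℝ, 0 ≤ c ∧ c • F - G ∈ quadCone I}

theorem mem_cone {I : Ideal (Poly n)} {F : Quad I} : F ∈ quadCone I ↔
    ∀ p (hp : p ∈ realPts I), 0 ≤ ev I p hp F.val := nonneg_iff

theorem cone_add {I : Ideal (Poly n)} {F G : Quad I} (hF : F ∈ quadCone I)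
    (hG : G ∈ quadCone I) : F + G ∈ quadCone I := by
  rw [mem_cone] at *
  intro p hp
  rw [val_add, map_add]
  exact add_nonneg (hF p hp) (hG p hp)

theorem cone_smul {I : Ideal (Poly n)} {F : Quad I} (hF : F ∈ quadCone I) {c : ℝ}
    (hc : 0 ≤ c) : c • F ∈ quadCone I := by
  rw [mem_cone] at *
  intro p hp
  rw [val_smul, ev_smul]
  exact mul_nonneg hc (hF p hp)

theorem face_convex (I : Ideal (Poly n)) (F : Quad I) : Convex ℝ (face I F) := by
  rintro G ⟨hG, c, hc, hcG⟩ H ⟨hH, d, hd, hdH⟩ a b ha hb hab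
  refine ⟨cone_add (cone_smul hG ha) (cone_smul hH hb), a * c + b * d, by positivity, ?_⟩
  have h1 : (a * c + b * d) • F - (a • G + b • H) = a • (c • F - G) + b • (d • F - H) := by
    module
  rw [h1]
  exact cone_add (cone_smul hcG ha) (cone_smul hdH hb)

theorem face_extreme (I : Ideal (Poly n)) (F : Quad I) :
    IsExtreme ℝ (quadCone I) (face I F) := by
  refine ⟨fun G hG => hG.1, ?_⟩
  rintro G hG H hH Z ⟨-, c, hc, hcZ⟩ ⟨a, b, ha, hb, hab, rfl⟩
  refine ⟨hG, c / a, by positivity, ?_⟩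
  have h1 : (c / a) • F - G = (1 / a) • (c • F - (a • G + b • H)) + (b / a) • H := by
    have h2 : (1 / a) * a = 1 := one_div_mul_cancel ha.ne'
    have h3 : (1 / a) • (c • F - (a • G + b • H)) = (1 / a * c) • F - ((1 / a * a) • G +
        (1 / a * b) • H) := by module
    rw [h3, h2, one_smul, show c / a = 1 / a * c by ring, show b / a = 1 / a * b by ring]
    abel
  rw [h1]
  exact cone_add (cone_smul hcZ (by positivity)) (cone_smul hH (by positivity))

theorem prolong {I : Ideal (Poly n)} {F G : Quad I} (hF : F ∈ quadCone I) {K : ℝ} (hK : 0 ≤ K)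
    (h1 : G - F ∈ quadCone I) (h2 : K • F - G ∈ quadCone I) :
    G ∈ face I F ∧ ∀ Y ∈ face I F, ∃ ε > (0 : ℝ), G + ε • (G - Y) ∈ face I F := by
  have hG : G ∈ quadCone I := by
    have := cone_add h1 hF
    rwa [sub_add_cancel] at this
  refine ⟨⟨hG, K, hK, h2⟩, ?_⟩
  rintro Y ⟨hY, c, hc, hcY⟩
  have hc1 : 0 < c + 1 := by linarith
  refine ⟨1 / (c + 1), by positivity, ?_, (1 + 1 / (c + 1)) * K, by positivity, ?_⟩
  · have h3 : G + (1 / (c + 1)) • (G - Y) = (1 + 1 / (c + 1)) • (G - F) +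
        ((1 + 1 / (c + 1) - 1 / (c + 1) * c) • F + (1 / (c + 1)) • (c • F - Y)) := by
      module
    rw [h3]
    have h4 : 0 ≤ 1 + 1 / (c + 1) - 1 / (c + 1) * c := by
      have : 1 + 1 / (c + 1) - 1 / (c + 1) * c = 2 / (c + 1) := by field_simp; ring
      rw [this]
      positivity
    exact cone_add (cone_smul h1 (by positivity)) (cone_add (cone_smul hF h4)
      (cone_smul hcY (by positivity)))
  · have h3 : ((1 + 1 / (c + 1)) * K) • F - (G + (1 / (c + 1)) • (G - Y)) =
        (1 + 1 / (c + 1)) • (K • F - G) + (1 / (c + 1)) • Y := by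
      module
    rw [h3]
    exact cone_add (cone_smul h2 (by positivity)) (cone_smul hY (by positivity))

theorem mem_intrinsicInterior_face {I : Ideal (Poly n)} {F G : Quad I} (hF : F ∈ quadCone I)
    {K : ℝ} (hK : 0 ≤ K) (h1 : G - F ∈ quadCone I) (h2 : K • F - G ∈ quadCone I)
    [TopologicalSpace (Quad I)] [IsTopologicalAddGroup (Quad I)]
    [ContinuousSMul ℝ (Quad I)] [T2Space (Quad I)] :
    G ∈ intrinsicInterior ℝ (face I F) :=
  mem_intrinsicInterior_of_prolong (face_convex I F) (prolong hF hK h1 h2).1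
    (prolong hF hK h1 h2).2

end Q49.SB
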