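import Pool.Agent.Q49.SB.Def

/-!
# General facts: the vanishing ideal of a cone, evaluation, sums of squares of real polynomials
-/

set_option autoImplicit false

namespace Q49.SB

open MvPolynomial

theorem aeval_scale {σ K : Type} [Fintype σ] [CommRing K] [Algebra ℝ K] {f : MvPolynomial σ ℝ}
    {m : ℕ} (hf : f.IsHomogeneous m) (t : K) (p : σ → K) :
    aeval (fun i => t * p i) f = t ^ m * aeval p f := by
  rw [aeval_def, eval₂_eq', aeval_def, eval₂_eq', Finset.mul_sum]
  refine Finset.sum_congr rfl fun d hd => ?_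
  have h1 : ∏ i, (t * p i) ^ d i = t ^ m * ∏ i, p i ^ d i := by
    simp_rw [mul_pow]
    rw [Finset.prod_mul_distrib, Finset.prod_pow_eq_pow_sum]
    congr 2
    rw [hf.degree_eq_sum_deg_support hd]
    exact (Finset.sum_subset (Finset.subset_univ _)
      fun i _ hi => Finsupp.notMem_support_iff.1 hi).symm
  rw [h1]
  ring

variable {n : ℕ}

/-- the vanishing ideal of a set of points -/
def van (C : Set (Fin (n + 1) → ℝ)) : Ideal (Poly n) where
  carrier := {f | ∀ p ∈ C, eval p f = 0}
  add_mem' := fun hf hg p hp => by rw [map_add, hf p hp, hg p hp, add_zero]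
  zero_mem' := fun p _ => map_zero _
  smul_mem' := fun c f hf p hp => by rw [smul_eq_mul, map_mul, hf p hp, mul_zero]

theorem mem_van {C : Set (Fin (n + 1) → ℝ)} {f : Poly n} : f ∈ van C ↔ ∀ p ∈ C, eval p f = 0 :=
  Iff.rfl

theorem totallyReal_van {C : Set (Fin (n + 1) → ℝ)}
    (hC : ∀ p ∈ C, ∀ t : ℝ, (fun i => t ^ 2 * p i) ∈ C) : TotallyReal (van C) where
  homogeneous := by
    intro f hf d p hp
    set N := f.totalDegree + 1
    let Q : Polynomial ℝ := ∑ j ∈ Finset.range N, Polynomial.monomial (2 * j)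
      (eval p (homogeneousComponent j f))
    have hQ : Q = 0 := by
      refine Polynomial.funext fun t => ?_
      have h1 := hf _ (hC p hp t)
      have h2 : f = ∑ j ∈ Finset.range N, homogeneousComponent j f :=
        (sum_homogeneousComponent f).symm
      rw [h2, map_sum] at h1
      rw [Polynomial.eval_finsetSum, Polynomial.eval_zero, ← h1]
      refine Finset.sum_congr rfl fun j _ => ?_
      have h3 := aeval_scale (homogeneousComponent_isHomogeneous j f) (t ^ 2) p
      rw [Polynomial.eval_monomial, pow_mul, mul_comm]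
      exact h3.symm
    by_cases hd : d < N
    · have h1 : Q.coeff (2 * d) = eval p (homogeneousComponent d f) := by
        rw [Polynomial.finsetSum_coeff, Finset.sum_eq_single d]
        · rw [Polynomial.coeff_monomial, if_pos rfl]
        · intro j _ hj
          rw [Polynomial.coeff_monomial, if_neg (by omega)]
        · intro h
          exact absurd (Finset.mem_range.2 hd) h
      rw [← h1, hQ, Polynomial.coeff_zero]
    · rw [homogeneousComponent_eq_zero _ _ (by omega), map_zero]
  dense := by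
    intro f hf p hp
    exact hf p fun g hg => hg p hp

/-- evaluation at a real point of the cone -/
noncomputable def ev (I : Ideal (Poly n)) (p : Fin (n + 1) → ℝ) (hp : p ∈ realPts I) :
    Poly n ⧸ I →+* ℝ := Ideal.Quotient.lift I (eval p) hp

theorem ev_mk (I : Ideal (Poly n)) (p : Fin (n + 1) → ℝ) (hp : p ∈ realPts I) (f : Poly n) :
    ev I p hp (Ideal.Quotient.mk I f) = eval p f := rfl

theorem nonneg_iff {I : Ideal (Poly n)} {F : Poly n ⧸ I} :
    Nonneg I F ↔ ∀ p (hp : p ∈ realPts I), 0 ≤ ev I p hp F := by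
  obtain ⟨f, rfl⟩ := Ideal.Quotient.mk_surjective F
  constructor
  · intro h p hp
    exact h f rfl p hp
  · intro h g hg p hp
    have := h p hp
    rw [← hg] at this
    exact this

theorem ev_smul (I : Ideal (Poly n)) (p : Fin (n + 1) → ℝ) (hp : p ∈ realPts I) (c : ℝ)
    (F : Poly n ⧸ I) : ev I p hp (c • F) = c * ev I p hp F := by
  obtain ⟨f, rfl⟩ := Ideal.Quotient.mk_surjective F
  change ev I p hp (Ideal.Quotient.mk I (c • f)) = _
  rw [ev_mk, ev_mk, smul_eval]

/-- Real polynomials whose squares sum to a constant are constant. -/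
theorem const_of_sum_sq {ι : Type} [Fintype ι] (q : ι → Polynomial ℝ) (c : ℝ)
    (h : ∑ i, q i ^ 2 = Polynomial.C c) (i : ι) : ∃ a : ℝ, q i = Polynomial.C a := by
  by_contra hcon
  have hdeg : 0 < (q i).degree := by
    by_contra hd
    exact hcon ⟨_, Polynomial.eq_C_of_degree_le_zero (not_lt.1 hd)⟩
  have ht := Polynomial.abs_tendsto_atTop (q i) hdeg
  obtain ⟨x, hx⟩ := (ht.eventually_ge_atTop (|c| + 1)).exists
  have h1 : (Polynomial.eval x (q i)) ^ 2 ≤ c := by
    have h2 := congrArg (Polynomial.eval x) h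
    rw [Polynomial.eval_finsetSum, Polynomial.eval_C] at h2
    rw [← h2]
    have h3 : ∀ j ∈ (Finset.univ : Finset ι), 0 ≤ Polynomial.eval x (q j ^ 2) := fun j _ => by
      rw [Polynomial.eval_pow]; positivity
    have h4 := Finset.single_le_sum h3 (Finset.mem_univ i)
    rwa [Polynomial.eval_pow] at h4
  have h5 : (|c| + 1) ^ 2 ≤ c := by
    refine le_trans ?_ h1
    rw [← sq_abs (Polynomial.eval x (q i))]
    exact pow_le_pow_left₀ (by positivity) hx 2
  nlinarith [le_abs_self c, abs_nonneg c]

/-- If the squares of real polynomials sum to `c (X² - 1) ^ (2 k)`, then each of them is a constant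
times `(X² - 1) ^ k`. -/
theorem div_of_sum_sq {ι : Type} [Fintype ι] (c : ℝ) : ∀ (k : ℕ) (q : ι → Polynomial ℝ),
    ∑ i, q i ^ 2 = Polynomial.C c * (Polynomial.X ^ 2 - 1) ^ (2 * k) →
    ∀ i, ∃ a : ℝ, q i = Polynomial.C a * (Polynomial.X ^ 2 - 1) ^ k := by
  intro k
  induction k with
  | zero =>
    intro q h i
    rw [mul_zero, pow_zero, mul_one] at h
    obtain ⟨a, ha⟩ := const_of_sum_sq q c h i
    exact ⟨a, by rw [ha, pow_zero, mul_one]⟩
  | succ k ih =>
    intro q h
    have hroot : ∀ x : ℝ, x ^ 2 = 1 → ∀ i, Polynomial.eval x (q i) = 0 := by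
      intro x hx i
      have h1 := congrArg (Polynomial.eval x) h
      rw [Polynomial.eval_finsetSum, Polynomial.eval_mul, Polynomial.eval_pow (n := 2 * (k + 1)),
        Polynomial.eval_sub, Polynomial.eval_pow, Polynomial.eval_X, Polynomial.eval_one, hx,
        sub_self, zero_pow (by omega), mul_zero] at h1
      have h2 := (Finset.sum_eq_zero_iff_of_nonneg fun j _ => by
        rw [Polynomial.eval_pow]; positivity).1 h1 i (Finset.mem_univ _)
      rw [Polynomial.eval_pow] at h2
      exact pow_eq_zero_iff (two_ne_zero) |>.1 h2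
    have hdvd : ∀ i, ∃ r, q i = (Polynomial.X ^ 2 - 1) * r := by
      intro i
      have h1 : (Polynomial.X - Polynomial.C (1 : ℝ)) ∣ q i :=
        Polynomial.dvd_iff_isRoot.2 (hroot 1 (by norm_num) i)
      have h2 : (Polynomial.X - Polynomial.C (-1 : ℝ)) ∣ q i :=
        Polynomial.dvd_iff_isRoot.2 (hroot (-1) (by norm_num) i)
      have h3 : IsCoprime (Polynomial.X - Polynomial.C (1 : ℝ))
          (Polynomial.X - Polynomial.C (-1 : ℝ)) :=
        Polynomial.isCoprime_X_sub_C_of_isUnit_sub (by norm_num)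
      obtain ⟨r, hr⟩ := h3.mul_dvd h1 h2
      refine ⟨r, ?_⟩
      rw [hr]
      congr 1
      rw [map_neg, Polynomial.C_1]
      ring
    choose r hr using hdvd
    have hne : (Polynomial.X ^ 2 - 1 : Polynomial ℝ) ≠ 0 := by
      intro h0
      have := congrArg (Polynomial.eval 0) h0
      simp at this
    have h2 : ∑ i, r i ^ 2 = Polynomial.C c * (Polynomial.X ^ 2 - 1) ^ (2 * k) := by
      have h3 : (Polynomial.X ^ 2 - 1) ^ 2 * ∑ i, r i ^ 2 =
          (Polynomial.X ^ 2 - 1) ^ 2 * (Polynomial.C c * (Polynomial.X ^ 2 - 1) ^ (2 * k)) := by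
        rw [Finset.mul_sum]
        calc ∑ i, (Polynomial.X ^ 2 - 1) ^ 2 * r i ^ 2 = ∑ i, q i ^ 2 :=
              Finset.sum_congr rfl fun i _ => by rw [hr i]; ring
          _ = _ := by rw [h]; ring
      exact mul_left_cancel₀ (pow_ne_zero 2 hne) h3
    intro i
    obtain ⟨a, ha⟩ := ih r h2 i
    exact ⟨a, by rw [hr i, ha]; ring⟩

end Q49.SB
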