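import Pool.Agent.Q49.SB.Face

/-!
# Stubbornness
-/

set_option autoImplicit false

namespace Q49.SB

open MvPolynomial

/-- evaluation of a real polynomial after substitution -/
theorem aeval_comp {K : Type} [CommRing K] [Algebra ℝ K] (z : K)
    (v : Fin (6 + 1) → Polynomial ℝ) (g : Poly 6) :
    Polynomial.aeval z (aeval v g) = aeval (fun i => Polynomial.aeval z (v i)) g := by
  induction g using MvPolynomial.induction_on with
  | C a => simp
  | add p q hp hq => rw [map_add, map_add, map_add, hp, hq]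
  | mul_X p i hp => rw [map_mul, map_mul, map_mul, hp, aeval_X, aeval_X]

theorem eval_comp (t : ℝ) (v : Fin (6 + 1) → Polynomial ℝ) (g : Poly 6) :
    Polynomial.eval t (aeval v g) = eval (fun i => Polynomial.eval t (v i)) g := by
  have := aeval_comp t v g
  rw [Polynomial.coe_aeval_eq_eval] at this
  exact this

section

variable {k r : ℕ} (hk : Odd k) (g : Fin r → Poly 6) (hg : ∀ i, (g i).IsHomogeneous k)
  (hsum : ∀ a b c : ℝ, ∑ i, (eval (pt a b c) (g i)) ^ 2 =
    ((a ^ 2 - b ^ 2) ^ 2 * ((1 + c ^ 4) ^ 2 + c ^ 4)) ^ k)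

include hsum

theorem left (c : ℝ) (i : Fin r) : ∃ u : ℝ, ∀ a : ℝ,
    eval (pt a 1 c) (g i) = u * (a ^ 2 - 1) ^ k := by
  let v : Fin (6 + 1) → Polynomial ℝ := ![Polynomial.X ^ 2, Polynomial.C (c ^ 2) * Polynomial.X ^ 2,
    Polynomial.C (c ^ 4) * Polynomial.X ^ 2, Polynomial.C (c ^ 2) * Polynomial.X, Polynomial.C c,
    Polynomial.C (c ^ 3), Polynomial.C (1 + c ^ 4)]
  have hv : ∀ a : ℝ, (fun i => Polynomial.eval a (v i)) = pt a 1 c := by
    intro a
    funext i
    fin_cases i <;> simp [v, pt] <;> ring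
  obtain ⟨u, hu⟩ := div_of_sum_sq (((1 + c ^ 4) ^ 2 + c ^ 4) ^ k) k (fun i => aeval v (g i)) (by
    refine Polynomial.funext fun a => ?_
    rw [Polynomial.eval_finsetSum]
    have h1 : ∀ i, Polynomial.eval a (aeval v (g i) ^ 2) = (eval (pt a 1 c) (g i)) ^ 2 := by
      intro i
      rw [Polynomial.eval_pow, eval_comp, hv]
    rw [Finset.sum_congr rfl fun i _ => h1 i, hsum]
    simp only [Polynomial.eval_mul, Polynomial.eval_C, Polynomial.eval_pow, Polynomial.eval_sub,
      Polynomial.eval_X, Polynomial.eval_one]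
    rw [mul_pow, pow_mul, one_pow, mul_comm]) i
  refine ⟨u, fun a => ?_⟩
  rw [← hv, ← eval_comp, hu]
  simp

theorem right (c : ℝ) (i : Fin r) : ∃ u : ℝ, ∀ b : ℝ,
    eval (pt 1 b c) (g i) = u * (b ^ 2 - 1) ^ k := by
  let v : Fin (6 + 1) → Polynomial ℝ := ![1, Polynomial.C (c ^ 2),
    Polynomial.C (c ^ 4), Polynomial.C (c ^ 2) * Polynomial.X, Polynomial.C c * Polynomial.X ^ 2,
    Polynomial.C (c ^ 3) * Polynomial.X ^ 2, Polynomial.C (1 + c ^ 4) * Polynomial.X ^ 2]
  have hv : ∀ b : ℝ, (fun i => Polynomial.eval b (v i)) = pt 1 b c := by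
    intro a
    funext i
    fin_cases i <;> simp [v, pt] <;> ring
  obtain ⟨u, hu⟩ := div_of_sum_sq (((1 + c ^ 4) ^ 2 + c ^ 4) ^ k) k (fun i => aeval v (g i)) (by
    refine Polynomial.funext fun a => ?_
    rw [Polynomial.eval_finsetSum]
    have h1 : ∀ i, Polynomial.eval a (aeval v (g i) ^ 2) = (eval (pt 1 a c) (g i)) ^ 2 := by
      intro i
      rw [Polynomial.eval_pow, eval_comp, hv]
    rw [Finset.sum_congr rfl fun i _ => h1 i, hsum]
    simp only [Polynomial.eval_mul, Polynomial.eval_C, Polynomial.eval_pow, Polynomial.eval_sub,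
      Polynomial.eval_X, Polynomial.eval_one]
    rw [mul_pow, pow_mul, one_pow, mul_comm, show (1 - a ^ 2) ^ 2 = (a ^ 2 - 1) ^ 2 by ring]) i
  refine ⟨u, fun a => ?_⟩
  rw [← hv, ← eval_comp, hu]
  simp

include hk hg

theorem anti (c : ℝ) (i : Fin r) :
    eval (pt 0 1 c) (g i) = - eval (pt 1 0 c) (g i) := by
  obtain ⟨u, hu⟩ := left g hsum c i
  obtain ⟨u', hu'⟩ := right g hsum c i
  have h1 : eval (pt 1 2 c) (g i) = 4 ^ k * eval (pt (1 / 2) 1 c) (g i) := by
    have h2 : pt 1 2 c = fun i => (2 : ℝ) ^ 2 * pt (1 / 2) 1 c i := by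
      rw [pt_scale]
      norm_num
    have h3 := aeval_scale (hg i) ((2 : ℝ) ^ 2) (pt (1 / 2) 1 c)
    rw [← h2] at h3
    have h4 : ((2 : ℝ) ^ 2) = 4 := by norm_num
    rw [h4] at h3
    exact h3
  rw [hu, hu'] at h1
  have h5 : (4 : ℝ) ^ k * (u * ((1 / 2) ^ 2 - 1) ^ k) = - (u * 3 ^ k) := by
    rw [mul_left_comm, ← mul_pow, show (4 : ℝ) * ((1 / 2) ^ 2 - 1) = -3 by norm_num, hk.neg_pow]
    ring
  rw [h5, show ((2 : ℝ) ^ 2 - 1) = 3 by norm_num, ← neg_mul] at h1
  have h6 : u' = - u := mul_right_cancel₀ (pow_ne_zero k (by norm_num)) h1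
  rw [hu, hu', h6, show ((0 : ℝ) ^ 2 - 1) = -1 by norm_num, hk.neg_one_pow]
  ring

theorem contra : False := by
  let v1 : Fin (6 + 1) → Polynomial ℝ := ![1, Polynomial.X ^ 2, Polynomial.X ^ 4, 0, 0, 0, 0]
  let v2 : Fin (6 + 1) → Polynomial ℝ :=
    ![0, 0, 0, 0, Polynomial.X, Polynomial.X ^ 3, 1 + Polynomial.X ^ 4]
  have hv1 : ∀ c : ℝ, (fun i => Polynomial.eval c (v1 i)) = pt 1 0 c := by
    intro a
    funext i
    fin_cases i <;> simp [v1, pt]
  have hv2 : ∀ c : ℝ, (fun i => Polynomial.eval c (v2 i)) = pt 0 1 c := by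
    intro a
    funext i
    fin_cases i <;> simp [v2, pt]
  have h1 : ∀ i, aeval v2 (g i) = - aeval v1 (g i) := by
    intro i
    refine Polynomial.funext fun c => ?_
    rw [Polynomial.eval_neg, eval_comp, eval_comp, hv1, hv2]
    exact anti hk g hg hsum c i
  have h2 : ∑ i, (aeval v1 (g i)) ^ 2 = ((1 + Polynomial.X ^ 4) ^ 2 + Polynomial.X ^ 4) ^ k := by
    refine Polynomial.funext fun c => ?_
    rw [Polynomial.eval_finsetSum]
    have h3 : ∀ i, Polynomial.eval c (aeval v1 (g i) ^ 2) = (eval (pt 1 0 c) (g i)) ^ 2 := by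
      intro i
      rw [Polynomial.eval_pow, eval_comp, hv1]
    rw [Finset.sum_congr rfl fun i _ => h3 i, hsum]
    simp
  obtain ⟨z, hz⟩ := IsAlgClosed.exists_pow_nat_eq (-1 : ℂ) (n := 4) (by norm_num)
  have h3 : ∀ i, Polynomial.aeval z (aeval v1 (g i)) = 0 := by
    intro i
    have e1 : Polynomial.aeval (-z) (aeval v1 (g i)) = Polynomial.aeval z (aeval v1 (g i)) := by
      rw [aeval_comp, aeval_comp]
      congr 2
      funext j
      fin_cases j <;> simp [v1] ; ring
    have e2 : Polynomial.aeval (-z) (aeval v2 (g i)) = - Polynomial.aeval z (aeval v2 (g i)) := by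
      rw [aeval_comp, aeval_comp]
      have h4 : (fun j => Polynomial.aeval (-z) (v2 j)) =
          fun j => (-1 : ℂ) * Polynomial.aeval z (v2 j) := by
        funext j
        fin_cases j
        · simp [v2]
        · simp [v2]
        · simp [v2]
        · simp [v2]
        · simp [v2]
        · simp [v2]; ring
        · have h5 : (-z) ^ 4 = -1 := by rw [← hz]; ring
          simp [v2, hz, h5]
      rw [h4, aeval_scale (hg i), hk.neg_one_pow]
      ring
    rw [h1, map_neg, map_neg, e1] at e2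
    have e3 : (2 : ℂ) * Polynomial.aeval z (aeval v1 (g i)) = 0 := by linear_combination -e2
    exact (mul_eq_zero.1 e3).resolve_left two_ne_zero
  have h4 := congrArg (Polynomial.aeval z) h2
  rw [map_sum] at h4
  have h5 : ∀ i, Polynomial.aeval z ((aeval v1 (g i)) ^ 2) = 0 := fun i => by
    rw [map_pow, h3, zero_pow two_ne_zero]
  rw [Finset.sum_congr rfl fun i _ => h5 i, Finset.sum_const_zero, map_pow] at h4
  have h6 : Polynomial.aeval z ((1 + Polynomial.X ^ 4) ^ 2 + Polynomial.X ^ 4 : Polynomial ℝ) =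
      (-1 : ℂ) := by
    simp [hz]
  rw [h6, hk.neg_one_pow] at h4
  norm_num at h4

end

/-- the quadric `L ^ 2` -/
noncomputable def F0 : Quad J := ⟨Ideal.Quotient.mk J (L ^ 2), L ^ 2, by
  have h : L.IsHomogeneous 1 := ((isHomogeneous_X _ _).add (isHomogeneous_X _ _)).sub
    (isHomogeneous_X _ _)
  exact h.pow 2, rfl⟩

theorem E_hom : E.IsHomogeneous 2 := by
  refine ((isHomogeneous_X _ _).pow 2 |>.sub ?_).add ((isHomogeneous_X _ _).mul (isHomogeneous_X _ _))
  have h : (2 * X 3 ^ 2 : Poly 6) = C 2 * X 3 ^ 2 := by rw [map_ofNat]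
  rw [h]
  exact ((isHomogeneous_X _ _).pow 2).C_mul 2

/-- the quadric `E` in the coordinate ring -/
noncomputable def E' : Quad J := ⟨Ideal.Quotient.mk J E, E, E_hom, rfl⟩

theorem E'_mem : E' ∈ quadCone J := mem_cone.2 fun _ hp => (E_nonneg hp).1

theorem F0_mem : F0 ∈ quadCone J := mem_cone.2 fun p _ => by
  change 0 ≤ eval p (L ^ 2)
  rw [map_pow]
  positivity

theorem F0_sub : (1 / 4 : ℝ) • F0 - E' ∈ quadCone J := mem_cone.2 fun p hp => by
  rw [val_sub, val_smul, map_sub, ev_smul]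
  change 0 ≤ 1 / 4 * eval p (L ^ 2) - eval p E
  have h := (E_nonneg hp).2
  rw [map_sub, map_mul, map_ofNat] at h
  linarith

theorem not_stubborn : ¬ Stubborn J 1 F0.val := by
  rintro ⟨-, -, h⟩
  refine h 1 odd_one ⟨1, fun _ => Ideal.Quotient.mk J L, fun _ => ⟨L, ?_, rfl⟩, ?_⟩
  · exact ((isHomogeneous_X _ _).add (isHomogeneous_X _ _)).sub (isHomogeneous_X _ _)
  · rw [pow_one, Fin.sum_univ_one]
    exact map_pow _ _ _

theorem stubborn : Stubborn J 1 (F0 + E').val := by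
  refine ⟨(F0 + E').2, ?_, ?_⟩
  · exact cone_add F0_mem E'_mem
  · rintro k hk ⟨r, G, hG, hsum⟩
    choose g hg hgG using hG
    rw [mul_one] at hg
    refine contra hk g hg fun a b c => ?_
    have h1 : (L ^ 2 + E) ^ k - ∑ i, g i ^ 2 ∈ J := by
      rw [← Ideal.Quotient.eq_zero_iff_mem, map_sub, map_pow, map_add, map_sum, sub_eq_zero]
      refine hsum.trans (Finset.sum_congr rfl fun i _ => ?_)
      rw [map_pow, ← hgG i]
      rfl
    have h2 := mem_J.1 h1 a b c
    rw [map_sub, sub_eq_zero, map_pow, map_sum] at h2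
    have h3 : eval (pt a b c) (L ^ 2 + E) = (a ^ 2 - b ^ 2) ^ 2 * ((1 + c ^ 4) ^ 2 + c ^ 4) := by
      simp [L, E, pt]
      ring
    rw [h3] at h2
    rw [h2]
    exact Finset.sum_congr rfl fun i _ => (map_pow _ _ _).symm

end Q49.SB
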